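import Mathlib
import Pool.Agent.J4.H38.GD.SDefs

/-! Project SD (helper38), piece P1: pairs of rough numbers in short intervals. -/

set_option autoImplicit false

namespace Pool.Agent.J4.H71.SD

open Finset Filter
open Pool.Agent.Y822
open Pool.Agent.J4.H38.SR
open Pool.Agent.J4.H38.GD
open Pool.Agent.H373R2.T7 (pz Vz mem_pz)

/-- if the density is zero then there is nothing to count -/
lemma rT_zero_of_VT {w : ℕ} {T : Finset ℕ} (h : VT w T = 0) (n : ℕ) : rT T w n = 0 := by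
  classical
  unfold VT at h
  rw [prod_eq_zero_iff] at h
  obtain ⟨p, hp, h0⟩ := h
  rw [pz_eq] at hp
  obtain ⟨hpw, hpp⟩ := mem_pz.1 hp
  have hp0 : (0 : ℝ) < p := by exact_mod_cast hpp.pos
  have h1 : (fT T p : ℝ) = p := by
    have : (fT T p : ℝ) / p = 1 := by linarith
    rwa [div_eq_one_iff_eq hp0.ne'] at this
  have h2 : fT T p = p := by exact_mod_cast h1
  have h3 : (range p).filter (fun r => ∃ t ∈ T, p ∣ r + t) = range p := by
    apply eq_of_subset_of_card_le (filter_subset _ _)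
    rw [card_range]
    exact h2.ge
  have h4 : n % p ∈ (range p).filter (fun r => ∃ t ∈ T, p ∣ r + t) := by
    rw [h3, mem_range]
    exact Nat.mod_lt _ hpp.pos
  obtain ⟨-, t, ht, hd⟩ := mem_filter.1 h4
  have hd' : p ∣ n + t := by
    have h5 : n + t ≡ n % p + t [MOD p] := Nat.ModEq.add_right t (Nat.mod_modEq n p).symm
    exact (Nat.modEq_zero_iff_dvd).1 (h5.trans ((Nat.modEq_zero_iff_dvd).2 hd))
  rw [rT_eq, if_neg]
  intro hall
  exact hall t ht p hpp hpw hd'

/-- otherwise it is bounded from below -/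
lemma VT_ge {w : ℕ} {T : Finset ℕ} (h : VT w T ≠ 0) : ∏ p ∈ pz w, (1 / (p : ℝ)) ≤ VT w T := by
  have hne := h
  unfold VT at h ⊢
  rw [pz_eq] at h ⊢
  refine prod_le_prod (fun p _ => by positivity) fun p hp => ?_
  have hpp := (mem_pz.1 hp).2
  have hp0 : (0 : ℝ) < p := by exact_mod_cast hpp.pos
  have hne' : (1 - (fT T p : ℝ) / p) ≠ 0 := by
    intro h0
    exact h (prod_eq_zero hp h0)
  have h1 : fT T p ≠ p := by
    intro h1
    apply hne'
    rw [h1, div_self hp0.ne', sub_self]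
  have h2 : fT T p + 1 ≤ p := by
    have := fT_le_p T p
    omega
  have h3 : (fT T p : ℝ) + 1 ≤ p := by exact_mod_cast h2
  rw [le_sub_iff_add_le, ← add_div, div_le_one hp0]
  linarith

theorem pair_cnt (w : ℕ) (hw : 2 ≤ w) : ∃ H₀ : ℕ, ∀ H : ℕ, H₀ ≤ H → ∀ a b : ℕ,
    ∑ d ∈ Icc 1 H, ro w (a + d) * ro w (b + d) ≤ 2 * (H * VT w {a, b}) := by
  classical
  obtain ⟨C0, K0, hC0, hK0, hcnt⟩ := cntT 2
  set c : ℝ := ∏ p ∈ pz w, (1 / (p : ℝ)) with hc
  have hc0 : 0 < c := by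
    refine prod_pos fun p hp => ?_
    have : (0 : ℝ) < p := by exact_mod_cast (mem_pz.1 hp).2.pos
    positivity
  obtain ⟨H₀, hH₀⟩ := exists_nat_ge (2 * (2 + Ad C0 K0 C0 w) / c)
  refine ⟨H₀, fun H hH a b => ?_⟩
  have hsum : ∑ d ∈ Icc 1 H, ro w (a + d) * ro w (b + d) = ∑ d ∈ Icc 1 H, rT {a, b} w d := by
    refine sum_congr rfl fun d _ => ?_
    unfold rT
    by_cases hab : a = b
    · subst hab
      simp only [pair_eq_singleton, prod_singleton]
      rw [add_comm a d]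
      unfold ro
      split_ifs <;> norm_num
    · rw [prod_pair hab, add_comm a d, add_comm b d]
  rw [hsum]
  by_cases h0 : VT w {a, b} = 0
  · rw [h0, mul_zero, mul_zero]
    exact (sum_eq_zero fun d _ => rT_zero_of_VT h0 d).le
  · have h1 := VT_ge h0
    have h2 := hcnt C0 le_rfl w hw {a, b} card_le_two H 0 0 1 1 le_rfl le_rfl (Ro_one w) (Ro_one w)
      (Nat.coprime_one_left 1)
    have h3 := (abs_le.1 h2).2
    simp only [one_dvd, if_true, mul_one, Nat.cast_one, div_one] at h3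
    have hH' : (H₀ : ℝ) ≤ H := by exact_mod_cast hH
    have h4 : 2 * (2 + Ad C0 K0 C0 w) ≤ H * c := by
      rw [← div_le_iff₀ hc0]
      exact hH₀.trans hH'
    have h5 : (H : ℝ) * c ≤ H * VT w {a, b} := mul_le_mul_of_nonneg_left h1 (Nat.cast_nonneg _)
    have h6 : ((1 : ℝ) / 2) ^ C0 ≤ 1 / 2 := by
      calc ((1 : ℝ) / 2) ^ C0 ≤ (1 / 2) ^ 1 := pow_le_pow_of_le_one (by norm_num) (by norm_num) hC0
        _ = _ := pow_one _
    have h7 : 0 ≤ (H : ℝ) * VT w {a, b} := mul_nonneg (Nat.cast_nonneg _) (VT_nonneg _ _)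
    have h8 := mul_le_mul_of_nonneg_right h6 h7
    linarith

end Pool.Agent.J4.H71.SD
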