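import Mathlib
import Pool.Agent.J4.H38.GD.SDefs

/-! Project SD (helper38), piece P2: the local densities of two shifts. -/

set_option autoImplicit false

namespace Pool.Agent.J4.H71.SD

open Finset Filter
open Pool.Agent.Y822
open Pool.Agent.J4.H38.SR
open Pool.Agent.J4.H38.GD
open Pool.Agent.H373R2.T7 (pz Vz mem_pz)

lemma fT_pair_one (a b : ℕ) {p : ℕ} (hp : p.Prime) : 1 ≤ fT {a, b} p := by
  rw [fT_eq _ hp.pos]
  unfold Pool.Agent.H387R2.Uni.nuT
  exact Finset.card_pos.2 ⟨a % p, Finset.mem_image.2 ⟨a, by simp, rfl⟩⟩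

lemma fT_pair_two (a b : ℕ) {p : ℕ} (hp : p.Prime) (h : ¬ (p : ℤ) ∣ (a : ℤ) - b) : 2 ≤ fT {a, b} p := by
  rw [fT_eq _ hp.pos]
  unfold Pool.Agent.H387R2.Uni.nuT
  have hne : a % p ≠ b % p := by
    intro he
    apply h
    have h1 : a ≡ b [MOD p] := he
    exact (Nat.modEq_iff_dvd.1 h1.symm)
  have h2 : ({a, b} : Finset ℕ).image (· % p) = {a % p, b % p} := by
    ext x
    simp
  rw [h2, Finset.card_pair hne]

theorem VT_pair : ∃ C : ℝ, 1 ≤ C ∧ ∀ z w : ℕ, 3 ≤ z → 3 ≤ w → ∀ a b : ℕ,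
    VT w {a, b} ≤ C * Real.log z * Vz w ^ 2 * tau z w ((a : ℤ) - b) := by
  classical
  obtain ⟨c, hc, hV⟩ := Vz_sharp
  refine ⟨max 1 (1 / c), le_max_left _ _, fun z w hz hw a b => ?_⟩
  set g : ℕ → ℝ := fun p => (if p ≤ z then (1 - 1 / (p : ℝ))⁻¹ else 1) *
    (if z < p ∧ (p : ℤ) ∣ (a : ℤ) - b then 1 + 2 / (p : ℝ) else 1) with hg
  have hpos : ∀ p : ℕ, p.Prime → 0 < 1 - 1 / (p : ℝ) ∧ 1 - 1 / (p : ℝ) ≤ 1 := by
    intro p hp
    have : (2 : ℝ) ≤ p := by exact_mod_cast hp.two_le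
    constructor
    · rw [sub_pos, div_lt_one (by linarith)]
      linarith
    · have : 0 ≤ 1 / (p : ℝ) := by positivity
      linarith
  have h1 : VT w {a, b} ≤ ∏ p ∈ pz w, ((1 - 1 / (p : ℝ)) ^ 2 * g p) := by
    unfold VT
    rw [pz_eq]
    refine prod_le_prod (fun p hp => ?_) (fun p hp => ?_)
    · rw [sub_nonneg]
      apply div_le_one_of_le₀ _ (Nat.cast_nonneg _)
      exact_mod_cast fT_le_p _ p
    · have hpp := (mem_pz.1 hp).2
      have hp2 : (2 : ℝ) ≤ p := by exact_mod_cast hpp.two_le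
      have hp0 : (0 : ℝ) < p := by linarith
      obtain ⟨hq, hq1⟩ := hpos p hpp
      have hf1 : (1 : ℝ) ≤ (fT {a, b} p : ℝ) := by exact_mod_cast fT_pair_one a b hpp
      have hle1 : 1 - (fT {a, b} p : ℝ) / p ≤ 1 - 1 / (p : ℝ) := by
        have := div_le_div_of_nonneg_right hf1 hp0.le
        linarith
      simp only [hg]
      by_cases hz' : p ≤ z
      · rw [if_pos hz', if_neg (by intro h; omega), mul_one, pow_two, mul_assoc, mul_inv_cancel₀ hq.ne', mul_one]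
        exact hle1
      · rw [if_neg hz', one_mul]
        by_cases hd : (p : ℤ) ∣ (a : ℤ) - b
        · rw [if_pos ⟨by omega, hd⟩]
          refine hle1.trans ?_
          have e : (1 - 1 / (p : ℝ)) ^ 2 * (1 + 2 / (p : ℝ)) =
              (1 - 1 / (p : ℝ)) * (1 + (p - 2) / (p : ℝ) ^ 2) := by
            field_simp
            ring
          rw [e]
          have : 0 ≤ ((p : ℝ) - 2) / (p : ℝ) ^ 2 := div_nonneg (by linarith) (by positivity)
          nlinarith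
        · rw [if_neg (by tauto), mul_one]
          have hf2 : (2 : ℝ) ≤ (fT {a, b} p : ℝ) := by exact_mod_cast fT_pair_two a b hpp hd
          have h3 := div_le_div_of_nonneg_right hf2 hp0.le
          have e : (1 - 1 / (p : ℝ)) ^ 2 = 1 - 2 / (p : ℝ) + (1 / (p : ℝ)) ^ 2 := by ring
          rw [e]
          have : 0 ≤ (1 / (p : ℝ)) ^ 2 := by positivity
          linarith
  have h2 : ∏ p ∈ pz w, ((1 - 1 / (p : ℝ)) ^ 2 * g p) =
      Vz w ^ 2 * ((∏ p ∈ (pz w).filter (fun p => p ≤ z), (1 - 1 / (p : ℝ))⁻¹) * tau z w ((a : ℤ) - b)) := by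
    rw [prod_mul_distrib, prod_pow]
    congr 1
    simp only [hg]
    rw [prod_mul_distrib, ← prod_filter, ← prod_filter]
    rfl
  have h3 : ∏ p ∈ (pz w).filter (fun p => p ≤ z), (1 - 1 / (p : ℝ))⁻¹ ≤ (Vz z)⁻¹ := by
    have hsub : (pz w).filter (fun p => p ≤ z) ⊆ pz z := by
      intro p hp
      rw [mem_filter] at hp
      exact mem_pz.2 ⟨hp.2, (mem_pz.1 hp.1).2⟩
    have hsd := Finset.prod_sdiff hsub (f := fun p : ℕ => (1 - 1 / (p : ℝ))⁻¹)
    have hone : 1 ≤ ∏ p ∈ pz z \ (pz w).filter (fun p => p ≤ z), (1 - 1 / (p : ℝ))⁻¹ := by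
      calc (1 : ℝ) = ∏ p ∈ pz z \ (pz w).filter (fun p => p ≤ z), (1 : ℝ) := by simp
        _ ≤ _ := by
          refine prod_le_prod (fun _ _ => zero_le_one) fun p hp => ?_
          obtain ⟨hq, hq1⟩ := hpos p (mem_pz.1 (mem_sdiff.1 hp).1).2
          exact (one_le_inv₀ hq).2 hq1
    have hnn : 0 ≤ ∏ p ∈ (pz w).filter (fun p => p ≤ z), (1 - 1 / (p : ℝ))⁻¹ := by
      refine prod_nonneg fun p hp => ?_
      exact (inv_pos.2 (hpos p (mem_pz.1 (mem_filter.1 hp).1).2).1).le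
    unfold Vz
    rw [← prod_inv_distrib, ← hsd]
    exact le_mul_of_one_le_left hnn hone
  have htau : 0 ≤ tau z w ((a : ℤ) - b) := prod_nonneg fun p _ => by positivity
  have hlog : 0 < Real.log z := Real.log_pos (by exact_mod_cast (by omega : 1 < z))
  have h4 : (Vz z)⁻¹ ≤ max 1 (1 / c) * Real.log z := by
    have h5 := hV z hz
    have h6 : 0 < c / Real.log z := by positivity
    calc (Vz z)⁻¹ ≤ (c / Real.log z)⁻¹ := inv_anti₀ h6 h5
      _ = 1 / c * Real.log z := by field_simp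
      _ ≤ _ := mul_le_mul_of_nonneg_right (le_max_right _ _) hlog.le
  calc VT w {a, b} ≤ _ := h1
    _ = _ := h2
    _ ≤ Vz w ^ 2 * ((max 1 (1 / c) * Real.log z) * tau z w ((a : ℤ) - b)) := by
        refine mul_le_mul_of_nonneg_left (mul_le_mul_of_nonneg_right (h3.trans h4) htau) (by positivity)
    _ = _ := by ring

end Pool.Agent.J4.H71.SD
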